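import Mathlib
import Pool.Agent.Helper156_SP.Der12

set_option autoImplicit false

/-!
# MP_91b7ff_nt: the moments `M_k(T)` and the mixed moments of the derivatives of zeta

Unconditionally, for every real `p > 0` and all orders `m_j ≤ N` and real exponents `q_j ≥ 0` with
`∑ q_j = p`, the mixed moment `∫_0^T ∏ |ζ^(m_j)(1/2 + it)|^(q_j) dt` lies between constant multiples of
`(log T)^(∑ m_j q_j) M_p(T ∓ W)`, with constants depending on `p` and `N` only. Hence the order of
magnitude of `M_k(T)` is known if and only if that of any one of these mixed moments is known; all of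
them are at least of the order `T (log T)^(p²/4 + ∑ m_j q_j)` expected of them, and for `0 < p ≤ 4` they are
exactly of this order.

Proof idea for the lower bound: `Λ = log t`. A maximum of `|ζ|` against a decaying weight near `t` gives a
point `u` such that the rescaled function `f(w) = ζ(1/2 + iu + w/Λ) / |ζ(1/2 + iu)|` is bounded on discs of
radius `R` by `exp(K R)`. The functional equation becomes `conj f(-conj w) = χ e^w f(w) + o(1)`. Hence `f` is
not close to a polynomial of degree less than `m`: if `f^(m)` were small, then so would be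
`(d/dw + 1)^m f`, and `f` itself. So `f^(m)` is not small at some point near `0`, and Jensen's formula bounds the
integral of `log |f^(m)|` over a segment of the critical line near `u` from below. By Jensen's inequality the
product of the `|f^(m_j)|^(q_j)` is not small in the mean, whatever the exponents. The same argument compares the
moments on the line `1/2 + λ/log T` with those on the critical line from above, whence the lower bound of the
expected order for all real `p > 0`.
-/

open Complex MeasureTheory

namespace Pool.Agent.Results.MP_91b7ff_nt.DerivativeMoments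

/-- The moment `M_p(T) = ∫_0^T |ζ(1/2 + it)|^p dt`, for real `p`. -/
noncomputable def M (p T : ℝ) : ℝ := ∫ t in (0:ℝ)..T, ‖riemannZeta (1 / 2 + t * I)‖ ^ p

/-- The mixed moment `∫_0^T ∏_j |ζ^(m_j)(1/2 + it)|^(q_j) dt` of the derivatives of zeta of the orders `m_j`
with the real exponents `q_j`. -/
noncomputable def mixedMoment {n : ℕ} (m : Fin n → ℕ) (q : Fin n → ℝ) (T : ℝ) : ℝ :=
  ∫ t in (0:ℝ)..T, ∏ j, ‖iteratedDeriv (m j) riemannZeta (1 / 2 + t * I)‖ ^ q j

theorem result (N : ℕ) (p : ℝ) (hp : 0 < p) :
    ∃ c C W T₀ : ℝ, 0 < c ∧ 0 < C ∧ ∀ T : ℝ, T₀ ≤ T →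
      ∀ (n : ℕ) (m : Fin n → ℕ) (q : Fin n → ℝ), (∀ j, m j ≤ N) → (∀ j, 0 ≤ q j) → ∑ j, q j = p →
      (c * (Real.log T ^ (∑ j, m j * q j) * M p (T - W)) ≤ mixedMoment m q T ∧
        mixedMoment m q T ≤ C * (Real.log T ^ (∑ j, m j * q j) * M p (T + W))) ∧
      c * (T * Real.log T ^ (p ^ 2 / 4 + ∑ j, m j * q j)) ≤ mixedMoment m q T ∧
      (p ≤ 4 → mixedMoment m q T ≤ C * (T * Real.log T ^ (p ^ 2 / 4 + ∑ j, m j * q j))) := by
  obtain ⟨c, C, W, T₀, hc, hC, h⟩ := Helper156_SP.der_final2 N hp
  refine ⟨c, C, W, T₀, hc, hC, fun T hT n m q hm hq hsum => ?_⟩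
  have h1 := h T hT n m q hm hq hsum
  have e : mixedMoment m q T = ∫ t in (0:ℝ)..T, ∏ j, Helper156_SP.dz (m j) t ^ q j := by
    unfold mixedMoment Helper156_SP.dz
    simp only [iteratedDeriv_eq_iterate]
  rw [e]
  exact h1

end Pool.Agent.Results.MP_91b7ff_nt.DerivativeMoments
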