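import Pool.Agent.Helper932Y.Main

set_option autoImplicit false

/-!
# MP_91b7ff_nt: the moments of `ζ` of all orders over `(log T)^κ` heights of almost every sequence, and their freezing

Let `a_n ≥ 1` increase to infinity with gaps at least `exp (-o(a_n))`, let `b_n > 0` with `log b_n = o(a_n)`, and put
`t_n = b_n α ^ (a_n)`, so that `log t_n` is of the order of `a_n`.  Let `φ(s, β) = s² + β²/4` if `|β| ≤ 2s` and
`φ(s, β) = s |β|` otherwise.

* If `0 < s < 2` and `∑ a_n^(-s²)` converges, then for every `β > 0` and almost every `α > 1` the sum of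
  `|ζ(1/2 + i t_n)|^β` over `n ≤ N` is at most `C a_N ^ φ(s, β)` for all `N`.
* If `s > 0` and `∑ a_n^(-s²)` diverges, then for almost every `α > 1`, every real `β`, every `ε > 0` and both signs, the
  sum of `|ζ(1/2 + i t_n)|^β` over the `n ≤ N` at which Hardy's function has that sign is at least `a_N ^ (φ(s, β) - ε)`
  for infinitely many `N`.

For `a_n = (n + 1)^(1/κ)`, `κ < 4`, these are about `(log T)^κ` heights up to `T`: the exponent of `log T` is
`κ + β²/4`, as predicted by the moment conjecture, for `β ≤ 2 √κ`, and it is `β √κ`, which is smaller, for `β > 2 √κ`.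
Unconditional.
-/

namespace Pool.Agent.Results.MP_91b7ff_nt.FreezingAlongSequences

open Filter MeasureTheory Topology

/-- Hardy's function `Z(t)`: the product `Γ_ℝ(1/2+it) / |Γ_ℝ(1/2+it)| · ζ(1/2+it)` is real, and `Z(t)` is its real part -/
noncomputable def hardyZ (t : ℝ) : ℝ :=
  (Complex.Gammaℝ (1 / 2 + t * Complex.I) / (‖Complex.Gammaℝ (1 / 2 + t * Complex.I)‖ : ℂ) *
    riemannZeta (1 / 2 + t * Complex.I)).re

/-- the exponent: the maximum of `r + k β` over the real `k` and `r ≥ 0` with `k² + r ≤ s²` -/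
noncomputable def phi (s β : ℝ) : ℝ := if |β| ≤ 2 * s then s ^ 2 + β ^ 2 / 4 else s * |β|

theorem result (a b : ℕ → ℝ) (ha : ∀ n, 1 ≤ a n) (hmono : StrictMono a) (hat : Tendsto a atTop atTop)
    (hgap : ∀ η : ℝ, 0 < η → ∀ᶠ n in atTop, a n + Real.exp (-(η * a n)) ≤ a (n + 1))
    (hb : ∀ n, 0 < b n) (hba : Tendsto (fun n => Real.log (b n) / a n) atTop (𝓝 0)) (s : ℝ) (hs : 0 < s) :
    (s < 2 → (Summable fun n => a n ^ (-(s ^ 2))) → ∀ β : ℝ, 0 < β →
      ∀ᵐ α : ℝ, 1 < α → ∃ C : ℝ, ∀ N : ℕ,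
        ∑ n ∈ Finset.range (N + 1), ‖riemannZeta (1 / 2 + (b n * α ^ a n : ℝ) * Complex.I)‖ ^ β ≤
          C * a N ^ phi s β) ∧
    ((¬ Summable fun n => a n ^ (-(s ^ 2))) →
      ∀ᵐ α : ℝ, 1 < α → ∀ σ : ℝ, (σ = 1 ∨ σ = -1) → ∀ β ε : ℝ, 0 < ε →
        ∃ᶠ N : ℕ in atTop, a N ^ (phi s β - ε) ≤
          ∑ n ∈ Finset.range (N + 1), if 0 < σ * hardyZ (b n * α ^ a n) then
            ‖riemannZeta (1 / 2 + (b n * α ^ a n : ℝ) * Complex.I)‖ ^ β else 0) :=
  ⟨fun h2 h β hβ => Pool.Agent.Helper932Y.main_up ha hmono hat hb hba hs h2 h hβ,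
    fun h => Pool.Agent.Helper932Y.main_low ha hmono hat hgap hb hba hs h⟩

end Pool.Agent.Results.MP_91b7ff_nt.FreezingAlongSequences
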